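import Pool.Agent.Helper42.VR.Pow.Defs

/-!
# Powers of two: block TOP
-/

set_option autoImplicit false

namespace Pool.Agent.Helper42.VR

open Finset

/-- products of coverings on a disjoint union -/
theorem cov_sum93 {κ ι : Type} [Fintype κ] [Fintype ι] {D D' : ℝ} {e : κ → ℝ} {g : ι → ℝ} (h : Cov κ D e) (h' : Cov ι D' g) :
    Cov (κ ⊕ ι) (D + D') (Sum.elim e g) := by
  obtain ⟨J, hJ, w, v, h1, h2, h3, h4, h5⟩ := h
  obtain ⟨J', hJ', w', v', h1', h2', h3', h4', h5'⟩ := h'
  refine ⟨J × J', inferInstance, fun q => w q.1 * w' q.2, fun q => Sum.elim (v q.1) (v' q.2),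
    fun q => mul_nonneg (h1 _) (h1' _), ?_, ?_, ?_, ?_⟩
  · rw [Fintype.sum_prod_type]
    simp only [← Finset.mul_sum, h2', mul_one, h2]
  · rintro q (i | i)
    · exact h3 _ _
    · exact h3' _ _
  · rintro (i | i)
    · rw [Fintype.sum_prod_type]
      have : ∀ a : J, ∑ b : J', w a * w' b * Sum.elim (v a) (v' b) (Sum.inl i) = w a * v a i := by
        intro a
        calc ∑ b : J', w a * w' b * Sum.elim (v a) (v' b) (Sum.inl i) = (w a * v a i) * ∑ b : J', w' b := by
              rw [Finset.mul_sum]
              exact Finset.sum_congr rfl fun b _ => by rw [Sum.elim_inl]; ring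
          _ = _ := by rw [h2', mul_one]
      simp only [this]
      exact h4 i
    · rw [Fintype.sum_prod_type_right]
      have : ∀ b : J', ∑ a : J, w a * w' b * Sum.elim (v a) (v' b) (Sum.inr i) = w' b * v' b i := by
        intro b
        calc ∑ a : J, w a * w' b * Sum.elim (v a) (v' b) (Sum.inr i) = (w' b * v' b i) * ∑ a : J, w a := by
              rw [Finset.mul_sum]
              exact Finset.sum_congr rfl fun a _ => by rw [Sum.elim_inr]; ring
          _ = _ := by rw [h2, mul_one]
      simp only [this]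
      exact h4' i
  · rintro ⟨a, b⟩ ⟨a', b'⟩ hj hj'
    have ha : w a ≠ 0 := left_ne_zero_of_mul hj
    have hb : w' b ≠ 0 := right_ne_zero_of_mul hj
    have ha' : w a' ≠ 0 := left_ne_zero_of_mul hj'
    have hb' : w' b' ≠ 0 := right_ne_zero_of_mul hj'
    rw [Fintype.sum_sum_type]
    simp only [Sum.elim_inl, Sum.elim_inr]
    linarith [h5 a a' ha ha', h5' b b' hb hb']

/-- the sign vectors with at most `m` entries `-1` -/
def Pat93 (κ : Type) [Fintype κ] (m : ℕ) : Set (κ → ℝ) :=
  {v | (∀ i, v i = 1 ∨ v i = -1) ∧ 2 * (m : ℝ) ≤ ∑ i, v i}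

theorem pat_finite93 (κ : Type) [Fintype κ] (m : ℕ) : (Pat93 κ m).Finite := by
  classical
  refine Set.Finite.subset (Set.Finite.pi' (t := fun _ : κ => ({1, -1} : Set ℝ)) fun _ => by simp) ?_
  intro v hv i
  exact hv.1 i

theorem pat_hull93 {κ : Type} [Fintype κ] {m : ℕ} (hκ : Fintype.card κ = 4 * m) {e : κ → ℝ} (he : ∀ i, |e i| ≤ 1)
    (hs : 2 * (m : ℝ) ≤ ∑ i, e i) : e ∈ convexHull ℝ (Pat93 κ m) := by
  classical
  set K : Set (κ → ℝ) := {e | (∀ i, |e i| ≤ 1) ∧ 2 * (m : ℝ) ≤ ∑ i, e i} with hK
  have hKe : K = (Set.univ.pi fun _ => Set.Icc (-1) 1) ∩ {e | 2 * (m : ℝ) ≤ ∑ i, e i} := by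
    ext e
    simp only [hK, Set.mem_setOf_eq, Set.mem_inter_iff, Set.mem_pi, Set.mem_univ, true_imp_iff, Set.mem_Icc, abs_le]
  have hcomp : IsCompact K := by
    rw [hKe]
    refine (isCompact_univ_pi fun _ => isCompact_Icc).inter_right ?_
    exact isClosed_le continuous_const (continuous_finset_sum _ fun i _ => continuous_apply i)
  have hconv : Convex ℝ K := by
    rw [hKe]
    refine (convex_pi fun i _ => convex_Icc _ _).inter ?_
    intro x hx y hy a b ha hb hab
    simp only [Set.mem_setOf_eq] at hx hy ⊢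
    simp only [Pi.add_apply, Pi.smul_apply, smul_eq_mul, Finset.sum_add_distrib, ← Finset.mul_sum]
    nlinarith
  have hext : K.extremePoints ℝ ⊆ Pat93 κ m := by
    intro x hx
    rw [mem_extremePoints] at hx
    obtain ⟨⟨hx1, hx2⟩, hx3⟩ := hx
    refine ⟨?_, hx2⟩
    by_contra hcon
    push Not at hcon
    obtain ⟨i, hi1, hi2⟩ := hcon
    have hi : |x i| < 1 := by
      refine lt_of_le_of_ne (hx1 i) fun h => ?_
      rcases (abs_eq zero_le_one).1 h with h | h
      · exact hi1 h
      · exact hi2 h
    -- perturbation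
    have key : ∀ (d : κ → ℝ) , x + d ∈ K → x - d ∈ K → d = 0 := by
      intro d h1 h2
      have h3 := (hx3 (x + d) h1 (x - d) h2 ⟨1 / 2, 1 / 2, by norm_num, by norm_num, by norm_num, by
        ext k
        simp only [Pi.add_apply, Pi.smul_apply, Pi.sub_apply, smul_eq_mul]
        ring⟩).1
      simpa using h3
    by_cases hj : ∃ j, j ≠ i ∧ |x j| < 1
    · obtain ⟨j, hji, hj⟩ := hj
      obtain ⟨ε, hε⟩ : ∃ ε, ε = min (1 - |x i|) (1 - |x j|) := ⟨_, rfl⟩
      have hε0 : 0 < ε := by rw [hε]; exact lt_min (by linarith) (by linarith)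
      have hε1 : ε ≤ 1 - |x i| := by rw [hε]; exact min_le_left _ _
      have hε2 : ε ≤ 1 - |x j| := by rw [hε]; exact min_le_right _ _
      have hsum : ∑ k, (Pi.single i ε - Pi.single j ε : κ → ℝ) k = 0 := by
        simp [Finset.sum_sub_distrib]
      have habs : ∀ k, |x k| + |(Pi.single i ε - Pi.single j ε : κ → ℝ) k| ≤ 1 := by
        intro k
        by_cases hki : k = i
        · subst hki
          rw [Pi.sub_apply, Pi.single_eq_same, Pi.single_eq_of_ne (Ne.symm hji), sub_zero, abs_of_pos hε0]
          linarith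
        · by_cases hkj : k = j
          · subst hkj
            rw [Pi.sub_apply, Pi.single_eq_same, Pi.single_eq_of_ne hji, zero_sub, abs_neg, abs_of_pos hε0]
            linarith
          · rw [Pi.sub_apply, Pi.single_eq_of_ne hki, Pi.single_eq_of_ne hkj, sub_zero, abs_zero, add_zero]
            exact hx1 k
      have h0 := key (Pi.single i ε - Pi.single j ε)
        ⟨fun k => (abs_add_le _ _).trans (habs k), by
          simp only [Pi.add_apply, Finset.sum_add_distrib]
          rw [hsum, add_zero]
          exact hx2⟩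
        ⟨fun k => (abs_sub _ _).trans (habs k), by
          have e1 : ∑ k, (x - (Pi.single i ε - Pi.single j ε) : κ → ℝ) k = ∑ k, x k := by
            calc _ = ∑ k, x k - ∑ k, (Pi.single i ε - Pi.single j ε : κ → ℝ) k := by
                  rw [← Finset.sum_sub_distrib]
                  rfl
              _ = _ := by rw [hsum, sub_zero]
          rw [e1]
          exact hx2⟩
      have h1 := congrFun h0 i
      rw [Pi.sub_apply, Pi.single_eq_same, Pi.single_eq_of_ne (Ne.symm hji), sub_zero] at h1
      exact hε0.ne' h1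
    · push Not at hj
      have hpm : ∀ k, k ≠ i → x k = 1 ∨ x k = -1 := fun k hk =>
        (abs_eq zero_le_one).1 (le_antisymm (hx1 k) (hj k hk))
      -- the sum is larger than `2 m`
      have hstrict : 2 * (m : ℝ) < ∑ k, x k := by
        refine lt_of_le_of_ne hx2 fun hne => ?_
        have e1 : ∑ k, x k = x i + ∑ k ∈ univ.erase i, x k := (Finset.add_sum_erase univ x (mem_univ i)).symm
        have e2 : ∑ k ∈ univ.erase i, x k = ((univ.erase i).card : ℝ) -
            2 * (((univ.erase i).filter fun k => x k = -1).card : ℝ) := by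
          rw [Finset.card_filter]
          push_cast
          rw [Finset.card_eq_sum_ones]
          push_cast
          rw [Finset.mul_sum, ← Finset.sum_sub_distrib]
          refine Finset.sum_congr rfl fun k hk => ?_
          rcases hpm k (Finset.ne_of_mem_erase hk) with h | h
          · rw [h]; norm_num
          · rw [h]; norm_num
        have e3 : ((univ.erase i).card : ℝ) = 4 * m - 1 := by
          have h1 : (univ.erase i).card + 1 = 4 * m := by
            rw [Finset.card_erase_add_one (mem_univ i), Finset.card_univ, hκ]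
          have h2 : (((univ.erase i).card + 1 : ℕ) : ℝ) = ((4 * m : ℕ) : ℝ) := by rw [h1]
          push_cast at h2
          linarith
        obtain ⟨n, hn⟩ : ∃ n, n = ((univ.erase i).filter fun k => x k = -1).card := ⟨_, rfl⟩
        rw [← hn] at e2
        have e4 : x i = 2 * (n : ℝ) + 1 - 2 * m := by linarith
        rw [abs_lt] at hi
        have h1 : (n : ℝ) < m := by linarith [hi.2]
        have h2 : (m : ℝ) < n + 1 := by linarith [hi.1]
        have h1' : n < m := by exact_mod_cast h1
        have h2' : m < n + 1 := by exact_mod_cast h2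
        omega
      obtain ⟨ε, hε⟩ : ∃ ε, ε = min (1 - |x i|) (∑ k, x k - 2 * m) := ⟨_, rfl⟩
      have hε0 : 0 < ε := by rw [hε]; exact lt_min (by linarith) (by linarith)
      have hε1 : ε ≤ 1 - |x i| := by rw [hε]; exact min_le_left _ _
      have hε2 : ε ≤ ∑ k, x k - 2 * m := by rw [hε]; exact min_le_right _ _
      have hsum : ∑ k, (Pi.single i ε : κ → ℝ) k = ε := by simp
      have habs : ∀ k, |x k| + |(Pi.single i ε : κ → ℝ) k| ≤ 1 := by
        intro k
        by_cases hki : k = i
        · subst hki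
          rw [Pi.single_eq_same, abs_of_pos hε0]
          linarith
        · rw [Pi.single_eq_of_ne hki, abs_zero, add_zero]
          exact hx1 k
      have h0 := key (Pi.single i ε)
        ⟨fun k => (abs_add_le _ _).trans (habs k), by
          simp only [Pi.add_apply, Finset.sum_add_distrib]
          rw [hsum]
          linarith⟩
        ⟨fun k => (abs_sub _ _).trans (habs k), by
          have e1 : ∑ k, (x - Pi.single i ε : κ → ℝ) k = ∑ k, x k - ε := by
            calc _ = ∑ k, x k - ∑ k, (Pi.single i ε : κ → ℝ) k := by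
                  rw [← Finset.sum_sub_distrib]
                  rfl
              _ = _ := by rw [hsum]
          rw [e1]
          linarith⟩
      have h1 := congrFun h0 i
      rw [Pi.single_eq_same] at h1
      exact hε0.ne' h1
  have hKM := closure_convexHull_extremePoints hcomp hconv
  have hmem : e ∈ K := ⟨he, hs⟩
  rw [← hKM] at hmem
  exact closure_minimal (convexHull_mono hext) ((pat_finite93 κ m).isClosed_convexHull ℝ) hmem

/-- block TOP -/
theorem cov_top {m : ℕ} (hT : T (4 * m)) {ι κ : Type} [Fintype ι] [Fintype κ]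
    (hι : Fintype.card ι + 1 = 4 * m) (hκ : Fintype.card κ = 4 * m) (e : κ → ℝ) (g : ι → ℝ)
    (he : ∀ i, |e i| ≤ 1) (hg : ∀ i, |g i| ≤ 1) (hs : 2 * (m : ℝ) ≤ ∑ i, e i) :
    Cov (κ ⊕ ι) 1 (Sum.elim e g) := by
  have h1 : Cov κ 0 e := by
    obtain ⟨J, hJ, w, v, h1, h2, h3, h4⟩ := mem_convexHull_iff_exists_fintype.1 (pat_hull93 hκ he hs)
    refine ⟨J, hJ, w, v, h1, h2, fun j => (h3 j).1, fun i => ?_, fun j j' _ _ => ?_⟩
    · rw [← h4]
      simp
    · have h5 : ∀ i, v j i + v j' i - 1 ≤ v j i * v j' i := by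
        intro i
        rcases (h3 j).1 i with h | h <;> rcases (h3 j').1 i with h' | h' <;> rw [h, h'] <;> norm_num
      have h6 := Finset.sum_le_sum fun i (_ : i ∈ univ) => h5 i
      rw [Finset.sum_sub_distrib, Finset.sum_add_distrib] at h6
      simp only [Finset.sum_const, Finset.card_univ, hκ, nsmul_eq_mul, mul_one] at h6
      push_cast at h6
      linarith [(h3 j).2, (h3 j').2]
  have h2 := cov_sum93 h1 (hT ι hι g hg)
  rwa [zero_add] at h2

end Pool.Agent.Helper42.VR
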