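import Pool.Agent.Helper93.VR.Digits

/-!
# All dimensions: `D ≤ ⌈log₂ (n + 1)⌉`
-/

set_option autoImplicit false

namespace Pool.Agent.Helper42.VR

open Finset

theorem cv_mono {n D D' : ℕ} (h : Cv n D) (hD : D ≤ D') : Cv n D' := fun ι _ hι y hy =>
  (h ι hι y hy).mono (by exact_mod_cast hD)

theorem cv_pow_le (hT : ∀ k, T (2 ^ k)) (j : ℕ) : ∀ n : ℕ, n + 1 ≤ 2 ^ j → Cv n j := by
  induction j with
  | zero =>
    intro n hn
    have : n = 0 := by simpa using hn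
    rw [this]
    exact cv_zero
  | succ j ih =>
    intro n hn
    rcases eq_or_lt_of_le hn with h | h
    · exact cv_mono (cv_of_T (hT (j + 1)) h) (by omega)
    · by_cases h1 : n + 1 ≤ 2 ^ j
      · exact cv_mono (ih n h1) (by omega)
      · have hp : 1 ≤ 2 ^ j := Nat.one_le_two_pow
        have h2 : 2 ^ (j + 1) = 2 * 2 ^ j := by ring
        obtain ⟨m, hm⟩ : ∃ m, n = m + (2 ^ j - 1) := ⟨n - (2 ^ j - 1), by omega⟩
        rw [hm]
        exact cv_add (ih m (by omega)) (cv_of_T (hT j) (Nat.sub_add_cancel hp))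

theorem surj_of_clog (hT : ∀ k, T (2 ^ k)) {n : ℕ} {ρ : ℝ} (h : ((n : ℝ) + Nat.clog 2 (n + 1)) / 2 ≤ ρ) : Surj n ρ :=
  surj_of_cv (cv_pow_le hT _ n (Nat.le_pow_clog (by norm_num) _)) h

end Pool.Agent.Helper42.VR
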