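import Pool.Agent.Helper93.VR.Clog

/-!
# Sums of digits `2 ^ a`, `3 * 2 ^ (a + 1)`, `5 * 2 ^ (a + 1)`
-/

set_option autoImplicit false

namespace Pool.Agent.Helper42.VR

open Finset

/-- The digits: `2 ^ a`, `3 * 2 ^ (a + 1)` and `5 * 2 ^ (a + 1)`. -/
def Dig (d : ℕ) : Prop := (∃ a, d = 2 ^ a) ∨ (∃ a, d = 3 * 2 ^ (a + 1)) ∨ (∃ a, d = 5 * 2 ^ (a + 1))

theorem dig_pos {d : ℕ} (h : Dig d) : 1 ≤ d := by
  rcases h with ⟨a, rfl⟩ | ⟨a, rfl⟩ | ⟨a, rfl⟩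
  · exact Nat.one_le_two_pow
  · have : 1 ≤ 2 ^ (a + 1) := Nat.one_le_two_pow
    omega
  · have : 1 ≤ 2 ^ (a + 1) := Nat.one_le_two_pow
    omega

theorem T_dig_of (h2 : ∀ k, T (2 ^ k)) (h3 : ∀ k, T (12 * 2 ^ k)) (h5 : ∀ k, T (20 * 2 ^ k)) {d : ℕ} (h : Dig d) :
    T (2 * d) := by
  rcases h with ⟨a, rfl⟩ | ⟨a, rfl⟩ | ⟨a, rfl⟩
  · have := h2 (a + 1)
    rwa [pow_succ'] at this
  · have := h3 a
    have e : 2 * (3 * 2 ^ (a + 1)) = 12 * 2 ^ a := by ring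
    rwa [e]
  · have := h5 a
    have e : 2 * (5 * 2 ^ (a + 1)) = 20 * 2 ^ a := by ring
    rwa [e]

/-- A sum of `t` digits: `2 m - t` coordinates with `D = t`. -/
theorem cv_list {P : ℕ → Prop} (hP : ∀ d, P d → 1 ≤ d ∧ T (2 * d)) {l : List ℕ} (hl : ∀ d ∈ l, P d) :
    ∃ a, a + l.length = 2 * l.sum ∧ Cv a l.length := by
  induction l with
  | nil => exact ⟨0, rfl, cv_zero⟩
  | cons d l ih =>
    obtain ⟨a, ha, hc⟩ := ih fun e he => hl e (List.mem_cons_of_mem _ he)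
    obtain ⟨h1, h2⟩ := hP d (hl d List.mem_cons_self)
    refine ⟨a + (2 * d - 1), ?_, ?_⟩
    · rw [List.length_cons, List.sum_cons]
      omega
    · rw [List.length_cons]
      exact cv_add hc (cv_of_T h2 (by omega))

theorem cv_of_list {P : ℕ → Prop} (hP : ∀ d, P d → 1 ≤ d ∧ T (2 * d)) {l : List ℕ} (hl : ∀ d ∈ l, P d) {n : ℕ}
    (hn : n + l.length ≤ 2 * l.sum) : Cv n (2 * l.sum - n) := by
  obtain ⟨a, ha, hc⟩ := cv_list hP hl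
  obtain ⟨j, hj⟩ : ∃ j, a = n + j := ⟨a - n, by omega⟩
  rw [hj] at hc
  have h1 := cv_drops j hc
  have h2 : l.length + j = 2 * l.sum - n := by omega
  rwa [h2] at h1

theorem surj_of_list' {P : ℕ → Prop} (hP : ∀ d, P d → 1 ≤ d ∧ T (2 * d)) {l : List ℕ} (hl : ∀ d ∈ l, P d) {n : ℕ} {r : ℝ}
    (hr : (l.sum : ℝ) ≤ r) (hn : n + l.length ≤ 2 * l.sum) : Surj n r := by
  refine surj_of_cv (cv_of_list hP hl hn) ?_
  have h2 : ((2 * l.sum - n : ℕ) : ℝ) = 2 * l.sum - n := by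
    rw [Nat.cast_sub (by omega)]
    push_cast
    ring
  rw [h2]
  linarith

/-- `2 m = n + t`, `m` a sum of `t` digits, `t ≤ 2`, or `t = 3` and `n ≡ 1` modulo four. -/
def IsSettled' (n : ℕ) : Prop := ∃ l : List ℕ, (∀ d ∈ l, Dig d) ∧ 2 * l.sum = n + l.length ∧
  (l.length ≤ 2 ∨ (l.length = 3 ∧ n % 4 = 1))

theorem question_of_settled_of (hD : ∀ d, Dig d → T (2 * d)) {n : ℕ} (hn : 1 ≤ n) (h : IsSettled' n) {r : ℝ} (hr : 0 ≤ r)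
    (hc : CenterCovered n r) : Surj n r := by
  obtain ⟨l, hl, hs, hlen⟩ := h
  obtain ⟨h1, h2⟩ := floor_of_center hn hc
  have hfl : ((⌊r⌋₊ : ℕ) : ℝ) ≤ r := Nat.floor_le hr
  have key : ∀ D : ℕ, Cv n D → n + D ≤ 2 * ⌊r⌋₊ → Surj n r := by
    intro D hD hle
    refine surj_of_cv hD ?_
    have : ((n : ℝ) + D) ≤ 2 * (⌊r⌋₊ : ℝ) := by exact_mod_cast hle
    linarith
  have hcv : Cv n l.length := by
    have h3 := cv_of_list (P := Dig) (fun d hd => ⟨dig_pos hd, hD d hd⟩) hl (n := n) (by omega)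
    have h4 : 2 * l.sum - n = l.length := by omega
    rwa [h4] at h3
  rcases hlen with hlen | ⟨hlen, h4⟩
  · exact key _ hcv (by omega)
  · by_cases hn1 : n = 1
    · subst hn1
      exact key 1 (cv_of_T (hD 1 (Or.inl ⟨0, rfl⟩)) (by norm_num)) h1
    · have h3 : n + 1 ≠ 2 * ⌊r⌋₊ := fun he => by
        rcases h2 he with h | h
        · exact hn1 h
        · omega
      exact key _ hcv (by omega)

theorem dig1 : Dig 1 := Or.inl ⟨0, rfl⟩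
theorem dig2 : Dig 2 := Or.inl ⟨1, rfl⟩
theorem dig4 : Dig 4 := Or.inl ⟨2, rfl⟩
theorem dig8 : Dig 8 := Or.inl ⟨3, rfl⟩
theorem dig6 : Dig 6 := Or.inr (Or.inl ⟨0, rfl⟩)
theorem dig12 : Dig 12 := Or.inr (Or.inl ⟨1, rfl⟩)
theorem dig10 : Dig 10 := Or.inr (Or.inr ⟨0, rfl⟩)

theorem settled_le {n : ℕ} (hn : 1 ≤ n) (h : n ≤ 26) : IsSettled' n := by
  have h1 : ∀ a n : ℕ, Dig a → 2 * a = n + 1 → IsSettled' n := fun a n ha he =>
    ⟨[a], by simpa using ha, by simpa using he, Or.inl (by simp)⟩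
  have h2 : ∀ a b n : ℕ, Dig a → Dig b → 2 * (a + b) = n + 2 → IsSettled' n := fun a b n ha hb he =>
    ⟨[a, b], by simpa using ⟨ha, hb⟩, by simpa using he, Or.inl (by simp)⟩
  have h3 : ∀ a b c n : ℕ, Dig a → Dig b → Dig c → 2 * (a + (b + c)) = n + 3 → n % 4 = 1 → IsSettled' n :=
    fun a b c n ha hb hc he h4 => ⟨[a, b, c], by simpa using ⟨ha, hb, hc⟩, by simpa using he, Or.inr ⟨by simp, h4⟩⟩
  interval_cases n
  · exact h1 1 _ dig1 rfl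
  · exact h2 1 1 _ dig1 dig1 rfl
  · exact h1 2 _ dig2 rfl
  · exact h2 2 1 _ dig2 dig1 rfl
  · exact h3 2 1 1 _ dig2 dig1 dig1 rfl rfl
  · exact h2 2 2 _ dig2 dig2 rfl
  · exact h1 4 _ dig4 rfl
  · exact h2 4 1 _ dig4 dig1 rfl
  · exact h3 4 1 1 _ dig4 dig1 dig1 rfl rfl
  · exact h2 4 2 _ dig4 dig2 rfl
  · exact h1 6 _ dig6 rfl
  · exact h2 6 1 _ dig6 dig1 rfl
  · exact h3 6 1 1 _ dig6 dig1 dig1 rfl rfl
  · exact h2 4 4 _ dig4 dig4 rfl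
  · exact h1 8 _ dig8 rfl
  · exact h2 8 1 _ dig8 dig1 rfl
  · exact h3 8 1 1 _ dig8 dig1 dig1 rfl rfl
  · exact h2 8 2 _ dig8 dig2 rfl
  · exact h1 10 _ dig10 rfl
  · exact h2 10 1 _ dig10 dig1 rfl
  · exact h3 10 1 1 _ dig10 dig1 dig1 rfl rfl
  · exact h2 10 2 _ dig10 dig2 rfl
  · exact h1 12 _ dig12 rfl
  · exact h2 12 1 _ dig12 dig1 rfl
  · exact h3 12 1 1 _ dig12 dig1 dig1 rfl rfl
  · exact h2 12 2 _ dig12 dig2 rfl

/-- The least `n ≥ 1` with `f_n` not surjective, by digits. -/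
theorem least_bounds_of_list (hD : ∀ d, Dig d → T (2 * d)) {l : List ℕ} (hl : ∀ d ∈ l, Dig d) (h1 : 1 ≤ l.sum) {N : ℕ}
    (hN : N = sInf {n | 1 ≤ n ∧ ¬ Surj n ((l.sum : ℕ) : ℝ)}) : N ≤ 2 * l.sum ∧ 2 * l.sum < N + l.length := by
  have hmem : 2 * l.sum ∈ {n : ℕ | 1 ≤ n ∧ ¬ Surj n ((l.sum : ℕ) : ℝ)} := by
    refine ⟨by omega, fun h => ?_⟩
    exact not_center_of_two_mul (by omega) le_rfl (h _ fun _ => by norm_num)
  have h2 : 1 ≤ N ∧ ¬ Surj N ((l.sum : ℕ) : ℝ) := by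
    rw [hN]
    exact Nat.sInf_mem ⟨_, hmem⟩
  refine ⟨by rw [hN]; exact Nat.sInf_le hmem, ?_⟩
  by_contra hcon
  exact h2.2 (surj_of_list' (P := Dig) (fun d hd => ⟨dig_pos hd, hD d hd⟩) hl le_rfl (by omega))

end Pool.Agent.Helper42.VR
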