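import Pool.Agent.Helper93.VR.Top
import Pool.Agent.Helper42.VR.Hadamard

/-!
# From powers of two to all dimensions: binary digit sums
-/

set_option autoImplicit false

namespace Pool.Agent.Helper42.VR

open Finset

/-- Every point of the cube `[-1, 1]^n` is an average of sign vectors with pairwise inner products at least `-D`. -/
def Cv (n D : ℕ) : Prop :=
  ∀ (ι : Type) [Fintype ι], Fintype.card ι = n → ∀ y : ι → ℝ, (∀ i, |y i| ≤ 1) → Cov ι (D : ℝ) y

theorem cv_zero : Cv 0 0 := by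
  intro ι _ h y _
  have : IsEmpty ι := Fintype.card_eq_zero_iff.1 h
  exact cov_of_isEmpty (by norm_num) y

theorem cv_of_T {N n : ℕ} (h : T N) (hn : n + 1 = N) : Cv n 1 := by
  intro ι _ hι y hy
  rw [Nat.cast_one]
  exact h ι (by omega) y hy

theorem cv_add {a b D D' : ℕ} (h : Cv a D) (h' : Cv b D') : Cv (a + b) (D + D') := by
  classical
  intro ι _ hι y hy
  have hc : Fintype.card ι = Fintype.card (Fin a ⊕ Fin b) := by
    rw [hι, Fintype.card_sum, Fintype.card_fin, Fintype.card_fin]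
  let e : ι ≃ Fin a ⊕ Fin b := Fintype.equivOfCardEq hc
  refine Cov.reindex e ?_
  have h1 := cov_sum93 (h (Fin a) (Fintype.card_fin a) (fun i => y (e.symm (Sum.inl i))) fun i => hy _)
    (h' (Fin b) (Fintype.card_fin b) (fun i => y (e.symm (Sum.inr i))) fun i => hy _)
  have h2 : (fun k => y (e.symm k)) =
      Sum.elim (fun i => y (e.symm (Sum.inl i))) fun i => y (e.symm (Sum.inr i)) := by
    funext k
    rcases k with k | k <;> rfl
  rw [h2]
  push_cast
  exact h1

theorem cv_drop {n D : ℕ} (h : Cv (n + 1) D) : Cv n (D + 1) := by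
  classical
  intro ι _ hι y hy
  obtain ⟨J, hJ, w, v, h1, h2, h3, h4, h5⟩ := h (Option ι) (by rw [Fintype.card_option, hι])
    (fun o => o.elim 1 y) (by
      rintro (_ | i)
      · simp
      · exact hy i)
  refine ⟨J, hJ, w, fun j i => v j (some i), h1, h2, fun j i => h3 j (some i), fun i => h4 (some i), fun j j' hj hj' => ?_⟩
  have h6 := h5 j j' hj hj'
  rw [Fintype.sum_option] at h6
  have h7 : v j none * v j' none ≤ 1 := by
    rcases h3 j none with a | a <;> rcases h3 j' none with b | b <;> rw [a, b] <;> norm_num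
  push_cast
  linarith

theorem cv_drops {n D : ℕ} (j : ℕ) (h : Cv (n + j) D) : Cv n (D + j) := by
  induction j generalizing D with
  | zero => exact h
  | succ j ih =>
    have h1 : Cv (n + j) (D + 1) := cv_drop (by rwa [← add_assoc] at h)
    have h2 := ih h1
    rwa [add_assoc, add_comm 1 j] at h2

/-- The binary digits of `m`. -/
theorem cv_digits (hT : ∀ k, T (2 ^ k)) (m : ℕ) :
    ∀ k : ℕ, ∃ a, a + (Nat.digits 2 m).sum = 2 ^ k * m ∧ Cv a (Nat.digits 2 m).sum := by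
  induction m using Nat.strong_induction_on with
  | _ m ih =>
    intro k
    rcases Nat.eq_zero_or_pos m with hm | hm
    · subst hm
      exact ⟨0, by simp, by simpa using cv_zero⟩
    · obtain ⟨a, ha, hc⟩ := ih (m / 2) (Nat.div_lt_self hm (by norm_num)) (k + 1)
      rw [Nat.digits_def' (by norm_num) hm, List.sum_cons]
      rcases Nat.mod_two_eq_zero_or_one m with h | h
      · refine ⟨a, ?_, ?_⟩
        · rw [h, zero_add, ha]
          have : m = 2 * (m / 2) := by omega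
          nth_rewrite 2 [this]
          ring
        · rwa [h, zero_add]
      · refine ⟨(2 ^ k - 1) + a, ?_, ?_⟩
        · rw [h]
          have h1 : 1 ≤ 2 ^ k := Nat.one_le_two_pow
          have h2 : m = 2 * (m / 2) + 1 := by omega
          have h3 : 2 ^ k * m = 2 ^ (k + 1) * (m / 2) + 2 ^ k := by
            nth_rewrite 1 [h2]
            ring
          rw [h3, ← ha]
          omega
        · rw [h]
          exact cv_add (cv_of_T (hT k) (Nat.sub_add_cancel Nat.one_le_two_pow)) hc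

theorem cv_of_digits (hT : ∀ k, T (2 ^ k)) {n r : ℕ} (h : n + (Nat.digits 2 r).sum ≤ 2 * r) : Cv n (2 * r - n) := by
  obtain ⟨a, ha, hc⟩ := cv_digits hT r 1
  rw [pow_one] at ha
  obtain ⟨j, hj⟩ : ∃ j, a = n + j := ⟨a - n, by omega⟩
  rw [hj] at hc
  have h1 := cv_drops j hc
  have h2 : (Nat.digits 2 r).sum + j = 2 * r - n := by omega
  rwa [h2] at h1

theorem surj_of_cv {n D : ℕ} (h : Cv n D) {r : ℝ} (hr : ((n : ℝ) + D) / 2 ≤ r) : Surj n r := by
  intro x hx
  refine exists_vr (D := D) (by linarith) (h (Fin n) (Fintype.card_fin n) _ fun i => ?_)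
  rw [abs_le]
  constructor <;> linarith [(hx i).1, (hx i).2]

/-- **Surjectivity for `n ≤ 2 r - s₂(r)`**, `s₂(r)` the sum of the binary digits. -/
theorem surj_of_digits (hT : ∀ k, T (2 ^ k)) {n r : ℕ} (h : n + (Nat.digits 2 r).sum ≤ 2 * r) {ρ : ℝ}
    (hρ : (r : ℝ) ≤ ρ) : Surj n ρ := by
  have h1 := cv_of_digits hT h
  refine surj_of_cv h1 ?_
  have h2 : ((2 * r - n : ℕ) : ℝ) = 2 * r - n := by
    rw [Nat.cast_sub (by omega)]
    push_cast
    ring
  rw [h2]
  linarith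

/-- The center is not covered for `n ≥ 2 r`. -/
theorem not_center_of_two_mul {n r : ℕ} (hn : 1 ≤ n) (h : 2 * r ≤ n) : ¬ CenterCovered n (r : ℝ) := by
  refine not_centerCovered hn ?_
  have : (2 : ℝ) * r ≤ n := by exact_mod_cast h
  linarith

/-- The scales are rounded down to integers. -/
theorem center_floor {n : ℕ} {ρ : ℝ} (h : CenterCovered n ρ) : CenterCovered n (⌊ρ⌋₊ : ℝ) := by
  obtain ⟨w, ⟨hw0, hw1, hwr⟩, hf⟩ := h
  refine ⟨w, ⟨hw0, hw1, fun a b ha hb => ?_⟩, hf⟩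
  have h1 := hwr a b ha hb
  rw [dist_nat] at h1 ⊢
  exact_mod_cast Nat.le_floor h1

theorem surj_mono {n : ℕ} {r ρ : ℝ} (h : Surj n r) (hr : r ≤ ρ) : Surj n ρ := by
  intro x hx
  obtain ⟨w, ⟨hw0, hw1, hwr⟩, hf⟩ := h x hx
  exact ⟨w, ⟨hw0, hw1, fun a b ha hb => (hwr a b ha hb).trans hr⟩, hf⟩

/-- The order of a Hadamard matrix with at least three rows is divisible by four. -/
theorem four_dvd93 {N : ℕ} (hN : 3 ≤ N) (h : HadamardExists N) : 4 ∣ N := by
  obtain ⟨H, hH, hO⟩ := h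
  have horth : ∀ i j : Fin N, ∑ k, H i k * H j k = if i = j then (N : ℤ) else 0 := by
    intro i j
    have h1 := congrFun (congrFun hO i) j
    simp only [Matrix.mul_apply, Matrix.transpose_apply, Matrix.smul_apply, Matrix.one_apply,
      smul_eq_mul, mul_ite, mul_one, mul_zero] at h1
    exact h1
  let r0 : Fin N := ⟨0, by omega⟩
  let r1 : Fin N := ⟨1, by omega⟩
  let r2 : Fin N := ⟨2, by omega⟩
  have h01 : r0 ≠ r1 := fun h => by simpa [r0, r1] using congrArg Fin.val h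
  have h02 : r0 ≠ r2 := fun h => by simpa [r0, r2] using congrArg Fin.val h
  have h12 : r1 ≠ r2 := fun h => by simpa [r1, r2] using congrArg Fin.val h
  have hsum : ∑ k, (H r0 k + H r1 k) * (H r0 k + H r2 k) = (N : ℤ) := by
    have e : ∀ k, (H r0 k + H r1 k) * (H r0 k + H r2 k) = H r0 k * H r0 k + H r0 k * H r2 k
        + H r0 k * H r1 k + H r1 k * H r2 k := fun k => by ring
    simp only [e, Finset.sum_add_distrib, horth, if_neg h01, if_neg h02, if_neg h12]
    simp
  have hdvd : (4 : ℤ) ∣ ∑ k, (H r0 k + H r1 k) * (H r0 k + H r2 k) := by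
    apply Finset.dvd_sum
    intro k _
    rcases hH r0 k with a | a <;> rcases hH r1 k with b | b <;> rcases hH r2 k with c | c <;>
      rw [a, b, c] <;> norm_num
  rw [hsum] at hdvd
  exact_mod_cast hdvd

/-- A center covered at the scale `r` has `n + 1 ≤ 2 ⌊r⌋`, with equality only for `n = 1` or `4 ∣ n + 1`. -/
theorem floor_of_center {n : ℕ} (hn : 1 ≤ n) {ρ : ℝ} (h : CenterCovered n ρ) :
    n + 1 ≤ 2 * ⌊ρ⌋₊ ∧ (n + 1 = 2 * ⌊ρ⌋₊ → n = 1 ∨ 4 ∣ n + 1) := by
  have h1 := center_floor h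
  constructor
  · by_contra hcon
    exact not_center_of_two_mul hn (by omega) h1
  · intro he
    by_contra hcon
    push Not at hcon
    refine hcon.2 (four_dvd93 (by omega) (centerCovered_iff_hadamard.1 ?_))
    have h2 : ((n : ℝ) + 1) / 2 = (⌊ρ⌋₊ : ℝ) := by
      have : ((n + 1 : ℕ) : ℝ) = ((2 * ⌊ρ⌋₊ : ℕ) : ℝ) := by rw [he]
      push_cast at this
      linarith
    rwa [h2]

/-- The question holds for all scales, if `n + 1` is a power of two, or `n` is even and `n + 2` is a sum of two powers of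
two, or `n` is `1` modulo four and `n + 3` is a sum of three powers of two. -/
theorem question_of_powers (hT : ∀ k, T (2 ^ k)) {n : ℕ} (hn : 1 ≤ n)
    (h : (∃ a, n + 1 = 2 ^ a) ∨ (Even n ∧ ∃ a b, n + 2 = 2 ^ a + 2 ^ b) ∨
      (n % 4 = 1 ∧ ∃ a b c, n + 3 = 2 ^ a + 2 ^ b + 2 ^ c)) {ρ : ℝ} (hρ : 0 ≤ ρ) (hc : CenterCovered n ρ) :
    Surj n ρ := by
  obtain ⟨h1, h2⟩ := floor_of_center hn hc
  have hfl : ((⌊ρ⌋₊ : ℕ) : ℝ) ≤ ρ := Nat.floor_le hρ
  have key : ∀ D : ℕ, Cv n D → n + D ≤ 2 * ⌊ρ⌋₊ → Surj n ρ := by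
    intro D hD hle
    refine surj_of_cv hD ?_
    have : ((n : ℝ) + D) ≤ 2 * (⌊ρ⌋₊ : ℝ) := by exact_mod_cast hle
    linarith
  have hp : ∀ a : ℕ, 1 ≤ 2 ^ a := fun a => Nat.one_le_two_pow
  have hT' : ∀ a : ℕ, Cv (2 ^ a - 1) 1 := fun a => cv_of_T (hT a) (Nat.sub_add_cancel (hp a))
  rcases h with ⟨a, ha⟩ | ⟨he, a, b, hab⟩ | ⟨h4, a, b, c, habc⟩
  · exact key 1 (cv_of_T (hT a) ha) h1
  · refine key 2 ?_ ?_
    · have h3 := cv_add (hT' a) (hT' b)
      have h5 : 2 ^ a - 1 + (2 ^ b - 1) = n := by have := hp a; have := hp b; omega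
      rwa [h5] at h3
    · obtain ⟨m, hm⟩ := he
      omega
  · by_cases hn1 : n = 1
    · subst hn1
      exact key 1 (cv_of_T (hT 1) (by norm_num)) h1
    · refine key 3 ?_ ?_
      · have h3 := cv_add (cv_add (hT' a) (hT' b)) (hT' c)
        have h5 : 2 ^ a - 1 + (2 ^ b - 1) + (2 ^ c - 1) = n := by
          have := hp a; have := hp b; have := hp c; omega
        rwa [h5] at h3
      · have h3 : n + 1 ≠ 2 * ⌊ρ⌋₊ := fun he => by
          rcases h2 he with h | h
          · exact hn1 h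
          · omega
        omega

/-- The least `n ≥ 1` for which `f_n : VR(Q_n; r) → [0, 1]ⁿ` is not surjective, for an integer `r ≥ 1`. -/
theorem least_bounds (hT : ∀ k, T (2 ^ k)) {r : ℕ} (hr : 1 ≤ r) {N : ℕ} (hN : N = sInf {n | 1 ≤ n ∧ ¬ Surj n (r : ℝ)}) :
    (1 ≤ N ∧ ¬ Surj N (r : ℝ)) ∧ N ≤ 2 * r ∧ 2 * r < N + (Nat.digits 2 r).sum := by
  have hmem : 2 * r ∈ {n : ℕ | 1 ≤ n ∧ ¬ Surj n (r : ℝ)} := by
    refine ⟨by omega, fun h => ?_⟩
    exact not_center_of_two_mul (by omega) le_rfl (h _ fun _ => by norm_num)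
  have h1 : 1 ≤ N ∧ ¬ Surj N (r : ℝ) := by
    rw [hN]
    exact Nat.sInf_mem ⟨_, hmem⟩
  refine ⟨h1, ?_, ?_⟩
  · rw [hN]
    exact Nat.sInf_le hmem
  · by_contra hcon
    exact h1.2 (surj_of_digits hT (by omega) le_rfl)

end Pool.Agent.Helper42.VR
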